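import Mathlib
import Pool.Agent.Run7.h811.Main

/-!
# Symplectomorphisms of cotangent bundles with convex slopes

Let `φ : T*M₁ → T*M₂` be a symplectomorphism, for closed connected manifolds `M₁`, `M₂` of the
same dimension. If over a compact fibrewise well of the fibrewise primitive of `φ` the map `φ` is
a twist map whose slopes satisfy a Jensen inequality (up to a multiple of the variance), then
`M₁` and `M₂` are diffeomorphic.
-/

open scoped Topology ContDiff Manifold
open Set Bundle

noncomputable section

namespace Pool.Agent.Results.MP_97e443_gt.ConvexSlopes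

/-! ### The cotangent bundle as a smooth manifold -/

section Cotangent

variable (F : Type*) [NormedAddCommGroup F] [NormedSpace ℝ F]
  (L : Type*) [TopologicalSpace L] [ChartedSpace F L]

/-- The cotangent space of `L` at `q`. -/
def CotangentSpace (q : L) : Type _ := TangentSpace 𝓘(ℝ, F) q →L[ℝ] ℝ

/-- The topology of the cotangent space, from Mathlib. -/
@[instance_reducible] def topCotangentSpace (q : L) : TopologicalSpace (CotangentSpace F L q) :=
  (inferInstance : TopologicalSpace (TangentSpace 𝓘(ℝ, F) q →L[ℝ] ℝ))

attribute [instance] topCotangentSpace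

/-- The cotangent bundle of `L`. -/
abbrev CotangentBundle : Type _ := TotalSpace (F →L[ℝ] ℝ) (CotangentSpace F L)

/-- The topology of the cotangent bundle: the one of the Mathlib bundle of continuous linear
maps from the tangent bundle to the trivial line bundle. -/
@[instance_reducible] def topCotangentBundle [IsManifold 𝓘(ℝ, F) ∞ L] :
    TopologicalSpace (CotangentBundle F L) :=
  ContinuousLinearMap.topologicalSpaceTotalSpace (RingHom.id ℝ) F (TangentSpace 𝓘(ℝ, F)) ℝ
    (fun _ : L => ℝ)

attribute [instance] topCotangentBundle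

/-- The fibre bundle structure of the cotangent bundle: the one of the Mathlib bundle of
continuous linear maps from the tangent bundle to the trivial line bundle. -/
@[instance_reducible] def fibCotangentBundle [IsManifold 𝓘(ℝ, F) ∞ L] :
    FiberBundle (F →L[ℝ] ℝ) (CotangentSpace F L) :=
  ContinuousLinearMap.fiberBundle (RingHom.id ℝ) F (TangentSpace 𝓘(ℝ, F)) ℝ (fun _ : L => ℝ)

attribute [instance] fibCotangentBundle

/-- The model vector space `F × F^*` of the cotangent bundle. A tangent vector of the cotangent
bundle at a covector `x` over `q` is a pair `(ξ, ζ)` in `F × F^*`, in the preferred chart at `x`: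
this chart is the bundle chart over the preferred chart of the manifold at `q`, so it is the same
chart for all the covectors at `q`. -/
def CotangentModel : Type _ := F × (F →L[ℝ] ℝ)

@[instance_reducible] def normCotangentModel : NormedAddCommGroup (CotangentModel F) :=
  (inferInstance : NormedAddCommGroup (F × (F →L[ℝ] ℝ)))

attribute [instance] normCotangentModel

@[instance_reducible] def spaceCotangentModel : NormedSpace ℝ (CotangentModel F) :=
  (inferInstance : NormedSpace ℝ (F × (F →L[ℝ] ℝ)))

attribute [instance] spaceCotangentModel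

/-- The smooth structure of the cotangent bundle: the one that Mathlib puts on the total space
of a smooth vector bundle. -/
@[instance_reducible] def chartedCotangentBundle [IsManifold 𝓘(ℝ, F) ∞ L] :
    ChartedSpace (CotangentModel F) (CotangentBundle F L) :=
  FiberBundle.chartedSpace (F := F →L[ℝ] ℝ) (E := CotangentSpace F L) (HB := F)

attribute [instance] chartedCotangentBundle

/-- The model with corners of the cotangent bundle, without boundary. -/
def cotangentCorners : ModelWithCorners ℝ (CotangentModel F) (CotangentModel F) :=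
  𝓘(ℝ, F).prod 𝓘(ℝ, F →L[ℝ] ℝ)

end Cotangent

/-! ### One-forms and their exterior derivative -/

section OneForms

variable {E : Type*} [NormedAddCommGroup E] [NormedSpace ℝ E] {H : Type*} [TopologicalSpace H]
  (I : ModelWithCorners ℝ E H) (X : Type*) [TopologicalSpace X] [ChartedSpace H X]

/-- One-forms on `X`. -/
abbrev OneForm : Type _ := (x : X) → TangentSpace I x →L[ℝ] ℝ

variable {I X}

/-- The value of the one-form `α` on the tangent vector `v` at `x`. -/
def eval (α : OneForm I X) (x : X) (v : TangentSpace I x) : ℝ := α x v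

/-- The one-form `α` written in the preferred chart `φ` at `x`: at the point `y` of the model
space `E` it is the pull back of `α` by `φ⁻¹`. -/
def formInChart (α : OneForm I X) (x : X) (y : E) : E →L[ℝ] ℝ :=
  (α ((extChartAt I x).symm y)).comp (mfderiv 𝓘(ℝ, E) I (extChartAt I x).symm y)

/-- The derivative in the direction `u` of the coefficient `α v`, at `x`, in the preferred chart
at `x` (in which the tangent space at `x` is identified with `E`). -/
def coefficientDerivative (α : OneForm I X) (x : X) (u v : TangentSpace I x) : ℝ :=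
  fderiv ℝ (formInChart α x) (extChartAt I x x) u v

/-- The exterior derivative `dα` at `x`, on the tangent vectors `u` and `v`. -/
def exteriorDerivative (α : OneForm I X) (x : X) (u v : TangentSpace I x) : ℝ :=
  coefficientDerivative α x u v - coefficientDerivative α x v u

/-- The differential of a real valued function. -/
def differential (I : ModelWithCorners ℝ E H) (f : X → ℝ) : OneForm I X :=
  fun x => mfderiv I 𝓘(ℝ, ℝ) f x

end OneForms

section Maps

variable {F : Type*} [NormedAddCommGroup F] [NormedSpace ℝ F]
  {L : Type*} [TopologicalSpace L] [ChartedSpace F L] [IsManifold 𝓘(ℝ, F) ∞ L]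
  {L' : Type*} [TopologicalSpace L'] [ChartedSpace F L'] [IsManifold 𝓘(ℝ, F) ∞ L']

/-- The Liouville form `p dq` of the cotangent bundle: at the covector `x` it sends the tangent
vector `v` to `x (dπ v)`, where `π` is the projection to `L`. -/
def liouvilleForm (F : Type*) [NormedAddCommGroup F] [NormedSpace ℝ F]
    (L : Type*) [TopologicalSpace L] [ChartedSpace F L] [IsManifold 𝓘(ℝ, F) ∞ L] :
    OneForm (cotangentCorners F) (CotangentBundle F L) :=
  fun x => ContinuousLinearMap.comp (M₂ := TangentSpace 𝓘(ℝ, F) x.proj) (M₃ := ℝ) x.snd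
    (mfderiv (cotangentCorners F) 𝓘(ℝ, F) (TotalSpace.proj : CotangentBundle F L → L) x)

/-- The base point of a covector. -/
def base (x : CotangentBundle F L) : L := x.proj

/-- The covector `p` at the point `q`. -/
def covectorAt (q : L) (p : F →L[ℝ] ℝ) : CotangentBundle F L := ⟨q, p⟩

/-- Tangent vectors of the cotangent bundle, at the covector `x`. -/
abbrev Vec (x : CotangentBundle F L) : Type _ := TangentSpace (cotangentCorners F) x

/-- The tangent vector `(ξ, ζ)` in the preferred chart. -/
def vec (x : CotangentBundle F L) (ξ : F) (ζ : F →L[ℝ] ℝ) : Vec x := (ξ, ζ)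

/-- The differential of the bundle projection, applied to a tangent vector. -/
def dBase (x : CotangentBundle F L) (v : Vec x) : F :=
  mfderiv (cotangentCorners F) 𝓘(ℝ, F) (TotalSpace.proj : CotangentBundle F L → L) x v

/-- The differential of a map between cotangent bundles, applied to a tangent vector. -/
def dMap (φ : CotangentBundle F L → CotangentBundle F L') (x : CotangentBundle F L)
    (v : Vec x) : Vec (φ x) :=
  mfderiv (cotangentCorners F) (cotangentCorners F) φ x v

/-- `φ` pulls back the symplectic form `dλ` of the target to the one of the source, where `λ` is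
the Liouville form. -/
def IsSymplectic (φ : CotangentBundle F L → CotangentBundle F L') : Prop :=
  ∀ (x : CotangentBundle F L) (u v : Vec x),
    exteriorDerivative (liouvilleForm F L') (φ x) (dMap φ x u) (dMap φ x v) =
      exteriorDerivative (liouvilleForm F L) x u v

/-- `h` is a smooth function whose restriction to every fibre is a primitive of the restriction
of the pull back by `φ` of the Liouville form: `dh (v) = λ (dφ v)` for vertical `v`. -/
def FibrewisePrimitive (φ : CotangentBundle F L → CotangentBundle F L')
    (h : CotangentBundle F L → ℝ) : Prop :=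
  ContMDiff (cotangentCorners F) 𝓘(ℝ, ℝ) ∞ h ∧
  ∀ (x : CotangentBundle F L) (v : Vec x), dBase x v = 0 →
    eval (differential (cotangentCorners F) h) x v = eval (liouvilleForm F L') (φ x) (dMap φ x v)

/-- In every fibre `h` takes, at some point of `K`, a value smaller than all its values at the
points of the frontier of `K` in the same fibre. -/
def FibrewiseWell (h : CotangentBundle F L → ℝ) (K : Set (CotangentBundle F L)) : Prop :=
  ∀ q : L, ∃ x ∈ K, base x = q ∧ ∀ y ∈ frontier K, base y = q → h x < h y

/-- The pair of `π₁` and `π₂ ∘ φ` is injective on `K`, and at every point of `K` no nonzero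
vertical vector is killed by the differential of `π₂ ∘ φ`. -/
def TwistOn (φ : CotangentBundle F L → CotangentBundle F L') (K : Set (CotangentBundle F L)) :
    Prop :=
  (∀ x ∈ K, ∀ y ∈ K, base x = base y → base (φ x) = base (φ y) → x = y) ∧
  ∀ x ∈ K, ∀ v : Vec x, dBase x v = 0 → dBase (φ x) (dMap φ x v) = 0 → v = 0

/-- The tangent vector `(ξ, ζ)` at the covector `p` at `q` is killed by the differential of
`π₂ ∘ φ`; then `ζ (ξ)` is the slope at `(q, p)` in the direction `ξ`. -/
def LeafVector (φ : CotangentBundle F L → CotangentBundle F L') (q : L) (p : F →L[ℝ] ℝ) (ξ : F)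
    (ζ : F →L[ℝ] ℝ) : Prop :=
  dBase (φ (covectorAt q p)) (dMap φ (covectorAt q p) (vec (covectorAt q p) ξ ζ)) = 0

/-- The Jensen inequality for the slopes over `K`, up to `κ` times the variance of `pᵢ (ξ)`. -/
def ConvexSlopesOn (φ : CotangentBundle F L → CotangentBundle F L')
    (K : Set (CotangentBundle F L)) (κ : ℝ) : Prop :=
  ∀ (q : L) (ξ : F) (n : ℕ) (w : Fin n → ℝ) (p ζ : Fin n → F →L[ℝ] ℝ) (τ : F →L[ℝ] ℝ),
    (∀ i, 0 ≤ w i) → ∑ i, w i = 1 → (∀ i, covectorAt q (p i) ∈ K) →
    (∀ i, LeafVector φ q (p i) ξ (ζ i)) → LeafVector φ q (∑ i, w i • p i) ξ τ →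
    τ ξ + κ * ((∑ i, w i • p i) ξ) ^ 2 ≤ ∑ i, w i * (ζ i ξ + κ * (p i ξ) ^ 2)

lemma mfderiv_rho_eq [FiniteDimensional ℝ F] {φ : CotangentBundle F L → CotangentBundle F L'}
    (hφ : ContMDiff (cotangentCorners F) (cotangentCorners F) ∞ φ) (x : CotangentBundle F L)
    (v : Vec x) :
    mfderiv (Helper186.IC F) 𝓘(ℝ, F) (Run7.h811.rho φ) x v = dBase (φ x) (dMap φ x v) := by
  have h1 := mfderiv_comp (I := Helper186.IC F) (I' := Helper186.IC F) (I'' := 𝓘(ℝ, F)) x
    (g := (TotalSpace.proj : Helper186.Cotangent F L' → L')) (f := φ)
    (Helper186.contMDiff_projC.mdifferentiableAt (by simp))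
    (ContMDiff.mdifferentiableAt (n := ∞) hφ (by simp))
  exact DFunLike.congr_fun h1 v

end Maps

/-- **Theorem.** Let `M₁`, `M₂` be closed connected manifolds of the same dimension and
`φ : T*M₁ → T*M₂` a symplectomorphism with fibrewise primitive `h`. If over some compact set `K`
that is a fibrewise well of `h` the map `φ` is a twist map with convex slopes, then `M₁` and `M₂`
are diffeomorphic. -/
theorem result {E : Type*} [NormedAddCommGroup E] [NormedSpace ℝ E] [FiniteDimensional ℝ E]
    {M₁ : Type*} [TopologicalSpace M₁] [T2Space M₁] [CompactSpace M₁] [ConnectedSpace M₁]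
    [ChartedSpace E M₁] [IsManifold 𝓘(ℝ, E) ∞ M₁]
    {M₂ : Type*} [TopologicalSpace M₂] [T2Space M₂] [CompactSpace M₂] [ConnectedSpace M₂]
    [ChartedSpace E M₂] [IsManifold 𝓘(ℝ, E) ∞ M₂]
    (φ : Diffeomorph (cotangentCorners E) (cotangentCorners E) (CotangentBundle E M₁)
      (CotangentBundle E M₂) ∞) (hφ : IsSymplectic φ)
    (h : CotangentBundle E M₁ → ℝ) (hh : FibrewisePrimitive φ h)
    (K : Set (CotangentBundle E M₁)) (hK : IsCompact K) (well : FibrewiseWell h K)
    (twist : TwistOn φ K) (κ : ℝ) (convex : ConvexSlopesOn φ K κ) :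
    Nonempty (Diffeomorph 𝓘(ℝ, E) 𝓘(ℝ, E) M₁ M₂ ∞) := by
  refine Run7.h811.criterion (F := E) (φ := φ) (φi := φ.symm) φ.contMDiff φ.symm.contMDiff
    (fun z => φ.apply_symm_apply z) hφ hh.1 hh.2 hK well twist.1 ?_ (κ := κ) ?_
  · intro x hx v hv1 hv2
    exact twist.2 x hx v hv1 ((mfderiv_rho_eq φ.contMDiff x v).symm.trans hv2)
  · intro q ξ n w p ζ τ hw hw1 hp hζ hτ
    have h0 : ∀ (p ζ : E →L[ℝ] ℝ), Run7.h811.Killed φ q p ξ ζ → LeafVector φ q p ξ ζ := by
      intro p ζ hk
      have h1 := mfderiv_rho_eq (φ := φ) φ.contMDiff (covectorAt q p) (vec (covectorAt q p) ξ ζ)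
      exact h1.symm.trans hk
    exact convex q ξ n w p ζ τ hw hw1 hp (fun i => h0 _ _ (hζ i)) (h0 _ _ hτ)

end Pool.Agent.Results.MP_97e443_gt.ConvexSlopes
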